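import Mathlib
import Pool.Agent.Mg.F4fffd4.Gfc5f17

set_option autoImplicit false

namespace Pool.Agent.Results.MP_4fffd4_nt.AllLengths

/-- There is `c > 0` such that for all large `n` at least `exp (c (n / log n) ^ (1 / 3))` sign
patterns of length `n` occur in the Liouville function. -/
theorem result : ∃ c : ℝ, 0 < c ∧ ∃ N : ℕ, ∀ n : ℕ, N ≤ n →
    Real.exp (c * ((n : ℝ) / Real.log n) ^ (1 / 3 : ℝ)) ≤
      (Set.ncard {ε : Fin n → ℤ | ∃ m : ℕ, 1 ≤ m ∧ ∀ j : Fin n,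
        ε j = (-1 : ℤ) ^ ArithmeticFunction.cardFactors (m + j + 1)} : ℝ) :=
  Pool.Agent.MP_4fffd4_nt.AN.wMain_all

end Pool.Agent.Results.MP_4fffd4_nt.AllLengths
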