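import Mathlib
import Pool.Agent.Mg.F43e117.Gde5950

set_option autoImplicit false

namespace Pool.Agent.Results.MP_4fffd4_nt.Chowla

open Polynomial

/-- Chowla's conjecture for the Liouville function of `F[X]`, for every finite field `F`: each
sign pattern along `k` independent linear forms has natural density `2 ^ (-k)`. -/
theorem result (F : Type) [Field F] [Fintype F] (k : ℕ) (a h : Fin k → F[X])
    (ha : ∀ i, a i ≠ 0) (hind : ∀ i j, i ≠ j → a i * h j ≠ a j * h i) (ε : Fin k → Bool) :
    Filter.Tendsto
      (fun n : ℕ => (Set.ncard {f : F[X] | f.Monic ∧ f.natDegree = n ∧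
          ∀ i, a i * f + h i ≠ 0 ∧
            (-1 : ℤ) ^ Multiset.card (UniqueFactorizationMonoid.factors (a i * f + h i)) =
              if ε i then 1 else -1} : ℝ) / (Fintype.card F : ℝ) ^ n)
      Filter.atTop (nhds (1 / 2 ^ k)) := by
  have := Pool.Agent.MP_4fffd4_nt.Odd.pattern_all a h ha hind
    (fun i => if ε i then 1 else -1) (fun i => by cases ε i <;> simp)
  rw [Fintype.card_fin] at this
  exact this

end Pool.Agent.Results.MP_4fffd4_nt.Chowla
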